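import Pool.Agent.Q210.PT.FLB
import Pool.Agent.H739K.AREA
import Pool.Agent.H739K.HOR
import Pool.Agent.H739K.CONV
import Pool.Agent.H739K.BOX

set_option autoImplicit false

namespace Pool.Agent.Q210.PT

open Finset Pool.Agent.H976R2 Pool.Agent.H976R2.Lip Pool.Agent.H739K Pool.Agent.H924P
open Pool.Agent.Q91.PT
open scoped Classical

open AREAx

theorem ed_v (x y y' : ℤ) (c : ℤ × ℤ) : ed (x, y) (x, y') c = 0 := by
  unfold ed
  rw [if_neg]
  rintro ⟨h | h, _⟩
  · simp only at h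
    omega
  · simp only at h
    omega

theorem ed_r (x y u v : ℤ) : ed (x, y) (x + 1, y) (u, v) = if x = u ∧ v < y then 1 else 0 := by
  unfold ed Q
  congr 1
  apply propext
  constructor
  · rintro ⟨h | h, h'⟩
    · simp only at h h'; omega
    · simp only at h h'; omega
  · rintro ⟨h, h'⟩
    exact ⟨Or.inl (by simp only; omega), h'⟩

theorem ed_l (x y u v : ℤ) : ed (x, y) (x + -1, y) (u, v) = if x = u + 1 ∧ v < y then 1 else 0 := by
  unfold ed Q
  congr 1
  apply propext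
  constructor
  · rintro ⟨h | h, h'⟩
    · simp only at h h'; omega
    · simp only at h h'; omega
  · rintro ⟨h, h'⟩
    exact ⟨Or.inr (by simp only; omega), h'⟩

/-- the two ways around a cell, seen from another cell -/
theorem two_ways (P c : ℤ × ℤ) (a b : Dir) (h : perp a b)
    (hc : c ≠ (min P.1 (P + dv a + dv b).1, min P.2 (P + dv a + dv b).2)) :
    (ed P (P + dv a) c + ed (P + dv a) (P + dv a + dv b) c) % 2 =
      (ed P (P + dv b) c + ed (P + dv b) (P + dv b + dv a) c) % 2 := by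
  obtain ⟨x, y⟩ := P
  obtain ⟨u, v⟩ := c
  rw [ne_eq, Prod.mk.injEq] at hc
  cases a <;> cases b <;> simp [perp, dx, dy] at h <;>
    simp only [dv, dx, dy, Prod.mk_add_mk, add_zero, ed_v, ed_r, ed_l] at hc ⊢ <;>
    split_ifs <;> omega

/-- the two ways around a cell, seen from the cell itself -/
theorem two_ways' (P c : ℤ × ℤ) (a b : Dir) (h : perp a b)
    (hc : c = (min P.1 (P + dv a + dv b).1, min P.2 (P + dv a + dv b).2)) :
    (ed P (P + dv a) c + ed (P + dv a) (P + dv a + dv b) c) % 2 ≠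
      (ed P (P + dv b) c + ed (P + dv b) (P + dv b + dv a) c) % 2 := by
  obtain ⟨x, y⟩ := P
  obtain ⟨u, v⟩ := c
  rw [Prod.mk.injEq] at hc
  intro hh
  cases a <;> cases b <;> simp [perp, dx, dy] at h <;>
    simp only [dv, dx, dy, Prod.mk_add_mk, add_zero, ed_v, ed_r, ed_l] at hc hh <;>
    split_ifs at hh <;> omega

theorem disp_eq (w : List Dir) : disp w = PP w w.length := by
  unfold disp PP
  rw [List.take_length]

theorem disp_sw (w : List Dir) (k : ℕ) (h1 : 1 ≤ k) (h2 : k < w.length) :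
    disp (sw w k) = disp w := by
  rw [disp_eq, disp_eq, sw_length w k h1 h2, PP_sw w k h1 h2 _ (by omega)]

theorem sq_sw (w : List Dir) (k : ℕ) (h1 : 1 ≤ k) (h2 : k < w.length) :
    Pool.Agent.H976R2.sq (sw w k) = Pool.Agent.H976R2.sq w := by
  have h := disp_sw w k h1 h2
  unfold disp at h
  rw [Prod.mk.injEq] at h
  unfold Pool.Agent.H976R2.sq
  rw [h.1, h.2]

theorem cw_two (w : List Dir) (k : ℕ) (h1 : 1 ≤ k) (h2 : k < w.length) (c : ℤ × ℤ) :
    ∃ r s : ℕ, cw c 0 w = r + (ed (PP w (k - 1)) (PP w (k - 1) + dv (lt w (k - 1))) c +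
      ed (PP w (k - 1) + dv (lt w (k - 1))) (PP w (k - 1) + dv (lt w (k - 1)) + dv (lt w k)) c) + s ∧
    cw c 0 (sw w k) = r + (ed (PP w (k - 1)) (PP w (k - 1) + dv (lt w k)) c +
      ed (PP w (k - 1) + dv (lt w k)) (PP w (k - 1) + dv (lt w k) + dv (lt w (k - 1))) c) + s := by
  have hP : (0 : ℤ × ℤ) + disp (w.take (k - 1)) = PP w (k - 1) := by rw [zero_add]; rfl
  refine ⟨cw c 0 (w.take (k - 1)),
    cw c (PP w (k - 1) + dv (lt w (k - 1)) + dv (lt w k)) (w.drop (k + 1)), ?_, ?_⟩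
  · conv_lhs => rw [split2 w k h1 h2]
    rw [cw_append, hP]
    simp only [cw]
    omega
  · unfold sw
    rw [cw_append, hP]
    simp only [cw]
    have h3 : PP w (k - 1) + dv (lt w k) + dv (lt w (k - 1)) =
      PP w (k - 1) + dv (lt w (k - 1)) + dv (lt w k) := by abel
    rw [h3]
    omega

theorem ins'_iff (w : List Dir) (c : ℤ × ℤ) : ins' w c ↔ Odd (cw c 0 w + ed (disp w) 0 c) :=
  AREAx.encl_iff w c

theorem ins_ne (w : List Dir) (k : ℕ) (h1 : 1 ≤ k) (h2 : k < w.length)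
    (hp : perp (lt w (k - 1)) (lt w k)) (c : ℤ × ℤ) (hc : c ≠ Pool.Agent.Q91.PT.cl w k) :
    ins' (sw w k) c ↔ ins' w c := by
  rw [(cl_eq w k h1 h2).2.2] at hc
  rw [ins'_iff, ins'_iff, disp_sw w k h1 h2]
  obtain ⟨r, s, e1, e2⟩ := cw_two w k h1 h2 c
  have h := two_ways (PP w (k - 1)) c _ _ hp hc
  rw [Nat.odd_iff, Nat.odd_iff, e1, e2]
  omega

theorem ins_eq (w : List Dir) (k : ℕ) (h1 : 1 ≤ k) (h2 : k < w.length)
    (hp : perp (lt w (k - 1)) (lt w k)) :
    ins' (sw w k) (Pool.Agent.Q91.PT.cl w k) ↔ ¬ ins' w (Pool.Agent.Q91.PT.cl w k) := by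
  have h := two_ways' (PP w (k - 1)) (Pool.Agent.Q91.PT.cl w k) _ _ hp (cl_eq w k h1 h2).2.2
  rw [ins'_iff, ins'_iff, disp_sw w k h1 h2]
  obtain ⟨r, s, e1, e2⟩ := cw_two w k h1 h2 (Pool.Agent.Q91.PT.cl w k)
  rw [Nat.odd_iff, Nat.odd_iff, e1, e2]
  omega

theorem fin_ins (w : List Dir) (hw : Saw w) (hs : Pool.Agent.H976R2.sq w = 1) : {c | ins' w c}.Finite := by
  have h1 : w ∈ KP w.length := by
    unfold KP
    rw [mem_filter, mem_SW]
    exact ⟨⟨rfl, hw⟩, hs⟩
  have h2 : pth w.length w ∈ {f | IsLoop (w.length + 1) f} := by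
    rw [← CONV.image_eq]
    exact ⟨w, h1, rfl⟩
  have h3 : IsLoop (w.length + 1) (lp (w.length + 1) w) := h2
  exact Set.finite_coe_iff.mp (HORaux.finite_encl h3.2.2)

theorem ar_eq (w : List Dir) : ar w = {c | ins' w c}.ncard := rfl

theorem flc : S_flc := by
  intro w k hl hw hs hk
  obtain ⟨f1, f2, f3, f4, f5, f6, f7, f8, f9⟩ := fla w k hw hk
  have m := (mem_Fl w k).mp hk
  have hs' : Pool.Agent.H976R2.sq (sw w k) = 1 := by rw [sq_sw w k m.1 m.2.1]; exact hs
  have hne := fun c hc => ins_ne w k m.1 m.2.1 m.2.2.1 c hc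
  have heq := ins_eq w k m.1 m.2.1 m.2.2.1
  refine ⟨hs', hne, heq, ?_⟩
  rw [ar_eq, ar_eq]
  set c0 := Pool.Agent.Q91.PT.cl w k with hc0
  have hfin := fin_ins w hw hs
  have hfin' := fin_ins (sw w k) f2 hs'
  by_cases h : ins' w c0
  · rw [if_pos h]
    have e : {c | ins' w c} = insert c0 {c | ins' (sw w k) c} := by
      ext c
      rw [Set.mem_insert_iff, Set.mem_ofPred_eq, Set.mem_ofPred_eq]
      by_cases hc : c = c0
      · rw [hc]; simp [h]
      · rw [hne c hc]; simp [hc]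
    have hn : c0 ∉ {c | ins' (sw w k) c} := by
      rw [Set.mem_ofPred_eq, heq]
      simpa using h
    rw [e, Set.ncard_insert_of_notMem hn hfin']
    push_cast
    ring
  · rw [if_neg h]
    have e : {c | ins' (sw w k) c} = insert c0 {c | ins' w c} := by
      ext c
      rw [Set.mem_insert_iff, Set.mem_ofPred_eq, Set.mem_ofPred_eq]
      by_cases hc : c = c0
      · rw [hc, heq]; simp [h]
      · rw [hne c hc]; simp [hc]
    have hn : c0 ∉ {c | ins' w c} := h
    rw [e, Set.ncard_insert_of_notMem hn hfin]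
    push_cast
    ring

end Pool.Agent.Q210.PT
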