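import Pool.Agent.Q91.PT.Stm

set_option autoImplicit false

namespace Pool.Agent.Q210.PT

open Finset Pool.Agent.H976R2 Pool.Agent.H976R2.Lip Pool.Agent.H739K Pool.Agent.H924P
open Pool.Agent.Q91.PT
open scoped Classical

/-! ### Basic facts on words -/

theorem PP_zero (w : List Dir) : PP w 0 = 0 := by
  unfold PP
  simp

theorem PP_ge (w : List Dir) (i : ℕ) (h : w.length ≤ i) : PP w i = PP w w.length := by
  unfold PP
  rw [List.take_of_length_le h, List.take_length]

theorem PP_append_le (a b : List Dir) (i : ℕ) (h : i ≤ a.length) : PP (a ++ b) i = PP a i := by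
  unfold PP
  rw [List.take_append_of_le_length h]

theorem PP_append (a b : List Dir) (i : ℕ) : PP (a ++ b) (a.length + i) = PP a a.length + PP b i := by
  unfold PP
  rw [List.take_append, List.take_of_length_le (by omega)]
  simp

theorem saw_iff (w : List Dir) : Saw w ↔ ∀ i j, i ≤ w.length → j ≤ w.length → PP w i = PP w j → i = j := by
  constructor
  · intro h i j hi hj hij
    exact PP_inj h hi hj hij
  · intro h
    rw [saw_iff_pos]
    intro a b c d hab hcd hx hy
    have h1 : PP w a.length = (wX a, wY a) := by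
      unfold PP
      rw [hab, List.take_left' rfl]
    have h2 : PP w c.length = (wX c, wY c) := by
      unfold PP
      rw [hcd, List.take_left' rfl]
    have h3 : a.length = c.length := by
      apply h
      · rw [hab]; simp
      · rw [hcd]; simp
      · rw [h1, h2, hx, hy]
    have h4 : a ++ b = c ++ d := by rw [← hab, ← hcd]
    exact (List.append_inj h4 h3).1

theorem lt_append_left (a b : List Dir) (i : ℕ) (h : i < a.length) : lt (a ++ b) i = lt a i := by
  unfold lt
  rw [List.getD_eq_getElem?_getD, List.getD_eq_getElem?_getD, List.getElem?_append_left h]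

theorem lt_append_right (a b : List Dir) (i : ℕ) : lt (a ++ b) (a.length + i) = lt b i := by
  unfold lt
  rw [List.getD_eq_getElem?_getD, List.getD_eq_getElem?_getD,
    List.getElem?_append_right (by omega), Nat.add_sub_cancel_left]

/-! ### Flips -/

/-- the decomposition of a word at a corner -/
theorem split2 (w : List Dir) (k : ℕ) (h1 : 1 ≤ k) (h2 : k < w.length) :
    w = w.take (k - 1) ++ lt w (k - 1) :: lt w k :: w.drop (k + 1) := by
  have e1 := split_at w (k - 1) (by omega)
  have e2 := split_at w k h2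
  have e3 : w.drop (k - 1 + 1) = lt w k :: w.drop (k + 1) := by
    rw [show k - 1 + 1 = k by omega]
    have h3 := congrArg (List.drop k) e2
    rw [List.drop_append_of_le_length (by rw [List.length_take]; omega)] at h3
    rw [h3, List.drop_take, Nat.sub_self, List.take_zero, List.nil_append]
  rw [e3] at e1
  exact e1

theorem sw_length (w : List Dir) (k : ℕ) (h1 : 1 ≤ k) (h2 : k < w.length) :
    (sw w k).length = w.length := by
  unfold sw
  simp only [List.length_append, List.length_take, List.length_cons, List.length_drop]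
  omega

theorem take_len (w : List Dir) (k : ℕ) (h1 : 1 ≤ k) (h2 : k < w.length) :
    (w.take (k - 1)).length = k - 1 := by
  rw [List.length_take]
  omega

theorem lt_sw_a (w : List Dir) (k : ℕ) (h1 : 1 ≤ k) (h2 : k < w.length) :
    lt (sw w k) (k - 1) = lt w k := by
  have h := lt_append_right (w.take (k - 1)) (lt w k :: lt w (k - 1) :: w.drop (k + 1)) 0
  rw [take_len w k h1 h2] at h
  exact h

theorem lt_sw_b (w : List Dir) (k : ℕ) (h1 : 1 ≤ k) (h2 : k < w.length) :
    lt (sw w k) k = lt w (k - 1) := by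
  have h := lt_append_right (w.take (k - 1)) (lt w k :: lt w (k - 1) :: w.drop (k + 1)) 1
  rw [take_len w k h1 h2, show k - 1 + 1 = k by omega] at h
  exact h

theorem lt_sw_o (w : List Dir) (k : ℕ) (h1 : 1 ≤ k) (h2 : k < w.length) (i : ℕ) (hi : i ≠ k)
    (hi' : i + 1 ≠ k) : lt (sw w k) i = lt w i := by
  rcases lt_or_ge i (k - 1) with h | h
  · have e1 := lt_append_left (w.take (k - 1)) (lt w k :: lt w (k - 1) :: w.drop (k + 1)) i
      (by rw [take_len w k h1 h2]; exact h)
    have e2 := lt_append_left (w.take (k - 1)) (lt w (k - 1) :: lt w k :: w.drop (k + 1)) i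
      (by rw [take_len w k h1 h2]; exact h)
    rw [← split2 w k h1 h2] at e2
    rw [e2]
    exact e1
  · obtain ⟨j, rfl⟩ : ∃ j, i = k - 1 + (j + 2) := ⟨i - (k - 1) - 2, by omega⟩
    have e1 := lt_append_right (w.take (k - 1)) (lt w k :: lt w (k - 1) :: w.drop (k + 1)) (j + 2)
    have e2 := lt_append_right (w.take (k - 1)) (lt w (k - 1) :: lt w k :: w.drop (k + 1)) (j + 2)
    rw [← split2 w k h1 h2] at e2
    rw [take_len w k h1 h2] at e1 e2
    rw [e2]
    exact e1

theorem sw_sw (w : List Dir) (k : ℕ) (h1 : 1 ≤ k) (h2 : k < w.length) : sw (sw w k) k = w := by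
  have hl := take_len w k h1 h2
  have e1 : (sw w k).take (k - 1) = w.take (k - 1) := by
    have h3 : (sw w k).take (w.take (k - 1)).length = w.take (k - 1) := by
      unfold sw
      rw [List.take_left' rfl]
    rw [hl] at h3
    exact h3
  have e2 : (sw w k).drop (k + 1) = w.drop (k + 1) := by
    have h3 : (sw w k).drop ((w.take (k - 1)).length + 2) = w.drop (k + 1) := by
      unfold sw
      rw [List.drop_append]
      simp
    rw [hl, show k - 1 + 2 = k + 1 by omega] at h3
    exact h3
  have e3 : sw (sw w k) k = (sw w k).take (k - 1) ++ lt (sw w k) k :: lt (sw w k) (k - 1) ::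
      (sw w k).drop (k + 1) := rfl
  rw [e3, e1, e2, lt_sw_a w k h1 h2, lt_sw_b w k h1 h2]
  exact (split2 w k h1 h2).symm

theorem PP_sw (w : List Dir) (k : ℕ) (h1 : 1 ≤ k) (h2 : k < w.length) :
    ∀ i, i ≠ k → PP (sw w k) i = PP w i := by
  have hlen := sw_length w k h1 h2
  have hlow : ∀ i, i < k → PP (sw w k) i = PP w i := by
    intro i
    induction i with
    | zero => intro _; rw [PP_zero, PP_zero]
    | succ i ih =>
      intro hi
      rw [PP_succ _ _ (by omega), PP_succ _ _ (by omega), ih (by omega),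
        lt_sw_o w k h1 h2 i (by omega) (by omega)]
  have hk1 : PP (sw w k) (k + 1) = PP w (k + 1) := by
    rw [PP_succ _ _ (by omega), PP_succ _ _ (by omega)]
    obtain ⟨k', rfl⟩ : ∃ k', k = k' + 1 := ⟨k - 1, by omega⟩
    have ha := lt_sw_a w (k' + 1) h1 h2
    have hb := lt_sw_b w (k' + 1) h1 h2
    rw [Nat.add_sub_cancel] at ha hb
    rw [PP_succ _ k' (by omega), PP_succ _ k' (by omega), hlow k' (by omega), ha, hb]
    abel
  have hhi : ∀ j, k + 1 + j ≤ w.length → PP (sw w k) (k + 1 + j) = PP w (k + 1 + j) := by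
    intro j
    induction j with
    | zero => intro _; exact hk1
    | succ j ih =>
      intro hj
      rw [← add_assoc, PP_succ _ _ (by omega), PP_succ _ _ (by omega), ih (by omega),
        lt_sw_o w k h1 h2 (k + 1 + j) (by omega) (by omega)]
  intro i hi
  rcases lt_or_ge i k with h | h
  · exact hlow i h
  · rcases le_or_gt i w.length with h' | h'
    · obtain ⟨j, rfl⟩ : ∃ j, i = k + 1 + j := ⟨i - (k + 1), by omega⟩
      exact hhi j h'
    · rw [PP_ge _ i (by omega), PP_ge w i (by omega), hlen]
      obtain ⟨j, hj⟩ : ∃ j, w.length = k + 1 + j := ⟨w.length - (k + 1), by omega⟩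
      rw [hj]
      exact hhi j (by omega)

theorem PP_sw_k (w : List Dir) (k : ℕ) (h1 : 1 ≤ k) (h2 : k < w.length) :
    PP (sw w k) k = PP w (k - 1) + dv (lt w k) := by
  obtain ⟨k', rfl⟩ : ∃ k', k = k' + 1 := ⟨k - 1, by omega⟩
  have ha := lt_sw_a w (k' + 1) h1 h2
  rw [Nat.add_sub_cancel] at ha ⊢
  rw [PP_succ _ k' (by rw [sw_length w _ h1 h2]; omega), PP_sw w (k' + 1) h1 h2 k' (by omega), ha]

theorem perp_ne {d e : Dir} (h : perp d e) : dv d ≠ dv e := by
  intro h'
  cases d <;> cases e <;> simp_all [perp, dv, dx, dy]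

theorem mem_Fl (w : List Dir) (k : ℕ) : k ∈ Fl w ↔ (1 ≤ k ∧ k < w.length ∧
    perp (lt w (k - 1)) (lt w k) ∧ Even (cl w k).1 ∧ Even (cl w k).2 ∧ Saw (sw w k)) := by
  unfold Fl
  rw [mem_filter, mem_range]
  tauto

theorem fla : S_fla := by
  intro w k hw hk
  rw [mem_Fl] at hk
  obtain ⟨h1, h2, hp, _, _, hs⟩ := hk
  refine ⟨sw_length w k h1 h2, hs, PP_sw w k h1 h2, PP_sw_k w k h1 h2, ?_, sw_sw w k h1 h2,
    lt_sw_a w k h1 h2, lt_sw_b w k h1 h2, lt_sw_o w k h1 h2⟩
  intro i hi h
  by_cases hik : i = k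
  · rw [hik] at h
    obtain ⟨k', rfl⟩ : ∃ k', k = k' + 1 := ⟨k - 1, by omega⟩
    rw [PP_succ w k' (by omega)] at h
    simp only [Nat.add_sub_cancel] at h hp
    exact perp_ne hp (add_left_cancel h)
  · rw [← PP_sw w k h1 h2 i hik, ← PP_sw_k w k h1 h2] at h
    exact hik (PP_inj hs (by rw [sw_length w k h1 h2]; exact hi)
      (by rw [sw_length w k h1 h2]; omega) h)

end Pool.Agent.Q210.PT
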