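import Pool.Agent.Q210.PT.FLA

set_option autoImplicit false

namespace Pool.Agent.Q210.PT

open Finset Pool.Agent.H976R2 Pool.Agent.H976R2.Lip Pool.Agent.H739K Pool.Agent.H924P
open Pool.Agent.Q91.PT
open scoped Classical

/-- the point is a vertex of the cell -/
def inC (c p : ℤ × ℤ) : Prop := (p.1 = c.1 ∨ p.1 = c.1 + 1) ∧ (p.2 = c.2 ∨ p.2 = c.2 + 1)

theorem inC_uniq {c c' p : ℤ × ℤ} (h : inC c p) (h' : inC c' p) (e1 : Even c.1) (e2 : Even c.2)
    (e3 : Even c'.1) (e4 : Even c'.2) : c = c' := by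
  obtain ⟨c1, c2⟩ := c
  obtain ⟨d1, d2⟩ := c'
  obtain ⟨p1, p2⟩ := p
  obtain ⟨a1, h1⟩ := e1
  obtain ⟨a2, h2⟩ := e2
  obtain ⟨a3, h3⟩ := e3
  obtain ⟨a4, h4⟩ := e4
  simp only [inC] at h h' h1 h2 h3 h4
  rw [Prod.mk.injEq]
  omega

/-- geometry of a corner -/
theorem corner (P : ℤ × ℤ) (a b : Dir) (h : perp a b) (c : ℤ × ℤ)
    (hc : c = (min P.1 (P + dv a + dv b).1, min P.2 (P + dv a + dv b).2)) :
    inC c P ∧ inC c (P + dv a) ∧ inC c (P + dv a + dv b) ∧ inC c (P + dv b) ∧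
    ∀ p, inC c p → p = P ∨ p = P + dv a ∨ p = P + dv a + dv b ∨ p = P + dv b := by
  obtain ⟨x, y⟩ := P
  subst hc
  cases a <;> cases b <;> simp [perp, dx, dy] at h <;>
    simp only [inC, dv, dx, dy, Prod.mk_add_mk] <;>
    (refine ⟨by omega, by omega, by omega, by omega, ?_⟩; rintro ⟨p1, p2⟩ hp;
      simp only [Prod.mk.injEq] at hp ⊢; omega)

theorem cl_eq (w : List Dir) (k : ℕ) (h1 : 1 ≤ k) (h2 : k < w.length) :
    PP w k = PP w (k - 1) + dv (lt w (k - 1)) ∧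
    PP w (k + 1) = PP w (k - 1) + dv (lt w (k - 1)) + dv (lt w k) ∧
    cl w k = (min (PP w (k - 1)).1 (PP w (k - 1) + dv (lt w (k - 1)) + dv (lt w k)).1,
      min (PP w (k - 1)).2 (PP w (k - 1) + dv (lt w (k - 1)) + dv (lt w k)).2) := by
  have e1 : PP w k = PP w (k - 1) + dv (lt w (k - 1)) := by
    have h := PP_succ w (k - 1) (by omega)
    rw [show k - 1 + 1 = k by omega] at h
    exact h
  have e2 : PP w (k + 1) = PP w (k - 1) + dv (lt w (k - 1)) + dv (lt w k) := by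
    rw [PP_succ w k h2, e1]
  refine ⟨e1, e2, ?_⟩
  unfold Pool.Agent.Q91.PT.cl
  rw [e2]

theorem cell (w : List Dir) (k : ℕ) (hk : k ∈ Fl w) :
    inC (Pool.Agent.Q91.PT.cl w k) (PP w (k - 1)) ∧ inC (Pool.Agent.Q91.PT.cl w k) (PP w k) ∧
    inC (Pool.Agent.Q91.PT.cl w k) (PP w (k + 1)) ∧
    inC (Pool.Agent.Q91.PT.cl w k) (PP w (k - 1) + dv (lt w k)) ∧
    ∀ p, inC (Pool.Agent.Q91.PT.cl w k) p → p = PP w (k - 1) ∨ p = PP w k ∨ p = PP w (k + 1) ∨
      p = PP w (k - 1) + dv (lt w k) := by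
  rw [mem_Fl] at hk
  obtain ⟨h1, h2, hp, _, _, _⟩ := hk
  obtain ⟨e1, e2, e3⟩ := cl_eq w k h1 h2
  rw [e2, e1]
  exact corner (PP w (k - 1)) _ _ hp _ e3

/-- the sites in the cell of a flippable corner -/
theorem cell_sites (w : List Dir) (k : ℕ) (hw : Saw w) (hk : k ∈ Fl w) (i : ℕ) (hi : i ≤ w.length)
    (h : inC (Pool.Agent.Q91.PT.cl w k) (PP w i)) : i = k - 1 ∨ i = k ∨ i = k + 1 := by
  have hf := (fla w k hw hk).2.2.2.2.1 i hi
  obtain ⟨_, _, _, _, hall⟩ := cell w k hk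
  rw [mem_Fl] at hk
  rcases hall _ h with h | h | h | h
  · left; exact PP_inj hw hi (by omega) h
  · right; left; exact PP_inj hw hi (by omega) h
  · right; right; exact PP_inj hw hi (by omega) h
  · exact absurd h hf

theorem cell_inj (w : List Dir) (k k' : ℕ) (hw : Saw w) (hk : k ∈ Fl w) (hk' : k' ∈ Fl w)
    (h : Pool.Agent.Q91.PT.cl w k = Pool.Agent.Q91.PT.cl w k') : k = k' := by
  obtain ⟨a1, a2, a3, _, _⟩ := cell w k hk
  obtain ⟨b1, b2, b3, _, _⟩ := cell w k' hk'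
  have m1 := (mem_Fl w k).mp hk
  have m2 := (mem_Fl w k').mp hk'
  rw [h] at a1 a2 a3
  have c1 := cell_sites w k' hw hk' (k - 1) (by omega) a1
  have c2 := cell_sites w k' hw hk' k (by omega) a2
  have c3 := cell_sites w k' hw hk' (k + 1) (by omega) a3
  omega

theorem cell_disj (w : List Dir) (k k' : ℕ) (hw : Saw w) (hk : k ∈ Fl w) (hk' : k' ∈ Fl w)
    (hne : k ≠ k') (p : ℤ × ℤ) (h1 : inC (Pool.Agent.Q91.PT.cl w k) p)
    (h2 : inC (Pool.Agent.Q91.PT.cl w k') p) : False := by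
  have m1 := (mem_Fl w k).mp hk
  have m2 := (mem_Fl w k').mp hk'
  exact hne (cell_inj w k k' hw hk hk' (inC_uniq h1 h2 m1.2.2.2.1 m1.2.2.2.2.1 m2.2.2.2.1
    m2.2.2.2.2.1))

/-- flippable corners have distance at least three -/
theorem cell_far (w : List Dir) (k k' : ℕ) (hw : Saw w) (hk : k ∈ Fl w) (hk' : k' ∈ Fl w)
    (hne : k ≠ k') : k + 3 ≤ k' ∨ k' + 3 ≤ k := by
  obtain ⟨a1, a2, a3, _, _⟩ := cell w k hk
  obtain ⟨b1, b2, b3, _, _⟩ := cell w k' hk'
  have m1 := (mem_Fl w k).mp hk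
  have m2 := (mem_Fl w k').mp hk'
  have key : ∀ i, (i = k - 1 ∨ i = k ∨ i = k + 1) → (i = k' - 1 ∨ i = k' ∨ i = k' + 1) → False := by
    intro i h1 h2
    refine cell_disj w k k' hw hk hk' hne (PP w i) ?_ ?_
    · rcases h1 with rfl | rfl | rfl
      · exact a1
      · exact a2
      · exact a3
    · rcases h2 with rfl | rfl | rfl
      · exact b1
      · exact b2
      · exact b3
  by_contra hcon
  push Not at hcon
  have h1 : k - 1 ≤ k' + 1 := by omega
  have h2 : k' - 1 ≤ k + 1 := by omega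
  rcases le_total k k' with h | h
  · exact key (k' - 1) (by omega) (by omega)
  · exact key (k - 1) (by omega) (by omega)

theorem cl_sw (w : List Dir) (k k' : ℕ) (hw : Saw w) (hk : k ∈ Fl w) (hk' : k' ∈ Fl w) :
    Pool.Agent.Q91.PT.cl (sw w k) k' = Pool.Agent.Q91.PT.cl w k' := by
  have m1 := (mem_Fl w k).mp hk
  have m2 := (mem_Fl w k').mp hk'
  have hne : k' - 1 ≠ k ∧ k' + 1 ≠ k := by
    by_cases h : k = k'
    · omega
    · have := cell_far w k k' hw hk hk' h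
      omega
  unfold Pool.Agent.Q91.PT.cl
  rw [PP_sw w k m1.1 m1.2.1 _ hne.1, PP_sw w k m1.1 m1.2.1 _ hne.2]

/-- criterion for a self-avoiding flip -/
theorem saw_sw (u : List Dir) (k : ℕ) (hu : Saw u) (h1 : 1 ≤ k) (h2 : k < u.length)
    (h : ∀ i ≤ u.length, i ≠ k → PP u i ≠ PP u (k - 1) + dv (lt u k)) : Saw (sw u k) := by
  rw [saw_iff]
  intro i j hi hj hij
  rw [sw_length u k h1 h2] at hi hj
  by_cases hik : i = k
  · by_cases hjk : j = k
    · rw [hik, hjk]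
    · rw [hik, PP_sw_k u k h1 h2, PP_sw u k h1 h2 j hjk] at hij
      exact absurd hij.symm (h j hj hjk)
  · by_cases hjk : j = k
    · rw [hjk, PP_sw_k u k h1 h2, PP_sw u k h1 h2 i hik] at hij
      exact absurd hij (h i hi hik)
    · rw [PP_sw u k h1 h2 i hik, PP_sw u k h1 h2 j hjk] at hij
      exact PP_inj hu hi hj hij

theorem perp_symm {a b : Dir} (h : perp a b) : perp b a := by
  unfold perp at h ⊢
  linarith

theorem Fl_sub (w : List Dir) (k : ℕ) (hw : Saw w) (hk : k ∈ Fl w) : Fl w ⊆ Fl (sw w k) := by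
  intro k' hk'
  have m1 := (mem_Fl w k).mp hk
  have m2 := (mem_Fl w k').mp hk'
  obtain ⟨f1, f2, f3, f4, f5, f6, f7, f8, f9⟩ := fla w k hw hk
  rw [mem_Fl, cl_sw w k k' hw hk hk', f1]
  refine ⟨m2.1, m2.2.1, ?_, m2.2.2.2.1, m2.2.2.2.2.1, ?_⟩
  · by_cases h : k' = k
    · subst h
      rw [f7, f8]
      exact perp_symm m2.2.2.1
    · have hf := cell_far w k k' hw hk hk' (Ne.symm h)
      rw [f9 (k' - 1) (by omega) (by omega), f9 k' (by omega) (by omega)]
      exact m2.2.2.1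
  · by_cases h : k' = k
    · subst h
      rw [f6]
      exact hw
    · have hf := cell_far w k k' hw hk hk' (Ne.symm h)
      refine saw_sw (sw w k) k' f2 m2.1 (by rw [f1]; exact m2.2.1) ?_
      intro i hi hik'
      rw [f1] at hi
      rw [f9 k' (by omega) (by omega), f3 (k' - 1) (by omega)]
      by_cases hik : i = k
      · rw [hik, f4]
        intro hcon
        have g1 := (cell w k hk).2.2.2.1
        have g2 := (cell w k' hk').2.2.2.1
        rw [hcon] at g1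
        exact cell_disj w k k' hw hk hk' (Ne.symm h) _ g1 g2
      · rw [f3 i hik]
        exact (fla w k' hw hk').2.2.2.2.1 i hi

theorem flb : S_flb := by
  intro w k hw hk
  obtain ⟨f1, f2, f3, f4, f5, f6, f7, f8, f9⟩ := fla w k hw hk
  refine ⟨?_, ?_⟩
  · apply Finset.Subset.antisymm
    · have h := Fl_sub (sw w k) k f2 (Fl_sub w k hw hk hk)
      rw [f6] at h
      exact h
    · exact Fl_sub w k hw hk
  · intro k' hk'
    refine ⟨cl_sw w k k' hw hk hk', ?_⟩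
    intro hne h
    exact hne (cell_inj w k' k hw hk' hk h)

end Pool.Agent.Q210.PT
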