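import Pool.Agent.Q210.PT.FLC

set_option autoImplicit false

namespace Pool.Agent.Q210.PT

open Finset Pool.Agent.H976R2 Pool.Agent.H976R2.Lip Pool.Agent.H739K Pool.Agent.H924P
open Pool.Agent.Q91.PT
open scoped Classical

theorem vis_iff_PP (w : List Dir) (p : ℤ × ℤ) : vis w p ↔ ∃ j ≤ w.length, PP w j = p := by
  constructor
  · rintro ⟨a, b, hw, h1, h2⟩
    refine ⟨a.length, by rw [hw]; simp, ?_⟩
    unfold PP
    rw [hw, List.take_left' rfl, h1, h2]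
  · rintro ⟨j, _, rfl⟩
    exact BOXx.vis_PP w j

/-- the coordinates of the new site are old coordinates -/
theorem coords (w : List Dir) (k : ℕ) (hw : Saw w) (hk : k ∈ Fl w) (p : ℤ × ℤ)
    (hp : vis (sw w k) p) : (∃ q, vis w q ∧ q.1 = p.1) ∧ (∃ q, vis w q ∧ q.2 = p.2) := by
  obtain ⟨f1, f2, f3, f4, f5, f6, f7, f8, f9⟩ := fla w k hw hk
  have m := (mem_Fl w k).mp hk
  rw [vis_iff_PP] at hp
  obtain ⟨j, hj, rfl⟩ := hp
  rw [f1] at hj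
  by_cases h : j = k
  · subst h
    rw [f4]
    obtain ⟨e1, e2, e3⟩ := cl_eq w j m.1 m.2.1
    have hperp := m.2.2.1
    have v1 : vis w (PP w (j - 1)) := (vis_iff_PP w _).mpr ⟨j - 1, by omega, rfl⟩
    have v2 : vis w (PP w (j + 1)) := (vis_iff_PP w _).mpr ⟨j + 1, by omega, rfl⟩
    have hor : ((PP w (j - 1)).1 = (PP w (j - 1) + dv (lt w j)).1 ∧
        (PP w (j + 1)).2 = (PP w (j - 1) + dv (lt w j)).2) ∨
        ((PP w (j - 1)).2 = (PP w (j - 1) + dv (lt w j)).2 ∧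
        (PP w (j + 1)).1 = (PP w (j - 1) + dv (lt w j)).1) := by
      rw [e2]
      generalize lt w (j - 1) = a at *
      generalize lt w j = b at *
      cases a <;> cases b <;> simp [perp, dx, dy] at hperp <;> simp [dv, dx, dy]
    rcases hor with ⟨h1, h2⟩ | ⟨h1, h2⟩
    · exact ⟨⟨_, v1, h1⟩, ⟨_, v2, h2⟩⟩
    · exact ⟨⟨_, v2, h2⟩, ⟨_, v1, h1⟩⟩
  · rw [f3 j h]
    have v : vis w (PP w j) := (vis_iff_PP w _).mpr ⟨j, hj, rfl⟩
    exact ⟨⟨_, v, rfl⟩, ⟨_, v, rfl⟩⟩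

theorem fld : S_fld := by
  intro w k hw hk
  obtain ⟨f1, f2, f3, f4, f5, f6, f7, f8, f9⟩ := fla w k hw hk
  have hk' : k ∈ Fl (sw w k) := Fl_sub w k hw hk hk
  have c1 := coords w k hw hk
  have c2 := coords (sw w k) k f2 hk'
  rw [f6] at c2
  obtain ⟨Mx, mx, My, my, hb, h1, h2, h3, h4⟩ := BOXx.exists_box w
  have hb' : ∀ p, vis (sw w k) p → mx ≤ p.1 ∧ p.1 ≤ Mx ∧ my ≤ p.2 ∧ p.2 ≤ My := by
    intro p hp
    obtain ⟨⟨q, hq, e1⟩, ⟨q', hq', e2⟩⟩ := c1 p hp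
    have := hb q hq
    have := hb q' hq'
    omega
  have g1 : ∃ p, vis (sw w k) p ∧ p.1 = Mx := by
    obtain ⟨p, hp, e⟩ := h1
    obtain ⟨q, hq, e1⟩ := (c2 p hp).1
    exact ⟨q, hq, by omega⟩
  have g2 : ∃ p, vis (sw w k) p ∧ p.1 = mx := by
    obtain ⟨p, hp, e⟩ := h2
    obtain ⟨q, hq, e1⟩ := (c2 p hp).1
    exact ⟨q, hq, by omega⟩
  have g3 : ∃ p, vis (sw w k) p ∧ p.2 = My := by
    obtain ⟨p, hp, e⟩ := h3
    obtain ⟨q, hq, e1⟩ := (c2 p hp).2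
    exact ⟨q, hq, by omega⟩
  have g4 : ∃ p, vis (sw w k) p ∧ p.2 = my := by
    obtain ⟨p, hp, e⟩ := h4
    obtain ⟨q, hq, e1⟩ := (c2 p hp).2
    exact ⟨q, hq, by omega⟩
  have w1 := BOXx.width_of w Mx mx (fun p hp => ⟨(hb p hp).1, (hb p hp).2.1⟩) h1 h2
  have w2 := BOXx.width_of (sw w k) Mx mx (fun p hp => ⟨(hb' p hp).1, (hb' p hp).2.1⟩) g1 g2
  have w3 := BOXx.height_of w My my (fun p hp => (hb p hp).2.2) h3 h4
  have w4 := BOXx.height_of (sw w k) My my (fun p hp => (hb' p hp).2.2) g3 g4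
  unfold dims
  rw [Prod.mk.injEq]
  omega

end Pool.Agent.Q210.PT
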