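import Pool.Agent.Q210.PT.FLB

set_option autoImplicit false

namespace Pool.Agent.Q210.PT

open Finset Pool.Agent.H976R2 Pool.Agent.H976R2.Lip Pool.Agent.H739K Pool.Agent.H924P
open Pool.Agent.Q91.PT
open scoped Classical

/-- a room around `v` starting at the site number `m` -/
def Room (w : List Dir) (m : ℕ) (v : ℤ × ℤ) : Prop := m + 8 ≤ w.length ∧
  PP w m = v + (2, 0) ∧ PP w (m + 1) = v + (1, 0) ∧ PP w (m + 2) = v + (1, 1) ∧
  PP w (m + 3) = v + (0, 1) ∧ PP w (m + 4) = v + (-1, 1) ∧ PP w (m + 5) = v + (-1, 0) ∧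
  PP w (m + 6) = v + (-1, -1) ∧ PP w (m + 7) = v + (0, -1) ∧ PP w (m + 8) = v + (0, -2)

theorem dead (w : List Dir) (hw : Saw w) (m : ℕ) (v : ℤ × ℤ) (h : Room w m v) :
    ∀ l ≤ w.length, PP w l ≠ v := by
  obtain ⟨hm, h0, h1, h2, h3, h4, h5, h6, h7, h8⟩ := h
  have nb : ∀ l ≤ w.length, ∀ d : Dir, PP w l = v + dv d →
      l = m + 1 ∨ l = m + 3 ∨ l = m + 5 ∨ l = m + 7 := by
    intro l hl d hd
    cases d
    · left; exact PP_inj hw hl (by omega) (by rw [hd, h1]; rfl)
    · right; right; left; exact PP_inj hw hl (by omega) (by rw [hd, h5]; rfl)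
    · right; left; exact PP_inj hw hl (by omega) (by rw [hd, h3]; rfl)
    · right; right; right; exact PP_inj hw hl (by omega) (by rw [hd, h7]; rfl)
  have bad : ∀ l, PP w l = v → l = m ∨ l = m + 2 ∨ l = m + 4 ∨ l = m + 6 ∨ l = m + 8 → False := by
    rintro l hl (rfl | rfl | rfl | rfl | rfl)
    · rw [h0] at hl; simp [Prod.ext_iff] at hl
    · rw [h2] at hl; simp [Prod.ext_iff] at hl
    · rw [h4] at hl; simp [Prod.ext_iff] at hl
    · rw [h6] at hl; simp [Prod.ext_iff] at hl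
    · rw [h8] at hl; simp [Prod.ext_iff] at hl
  intro l hl hv
  rcases Nat.lt_or_ge l w.length with h | h
  · have e := PP_succ w l h
    rw [hv] at e
    have := nb (l + 1) (by omega) _ e
    exact bad l hv (by omega)
  · have e := PP_succ w (l - 1) (by omega)
    rw [show l - 1 + 1 = l by omega, hv] at e
    have e2 : PP w (l - 1) = v + dv (opp (lt w (l - 1))) := by
      rw [e]
      generalize lt w (l - 1) = d
      rw [add_assoc]
      have : dv d + dv (opp d) = 0 := by cases d <;> simp [dv, dx, dy, opp]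
      rw [this, add_zero]
    have := nb (l - 1) (by omega) _ e2
    exact bad l hv (by omega)

theorem mk_Fl (w : List Dir) (hw : Saw w) (v : ℤ × ℤ) (hv : ∀ l ≤ w.length, PP w l ≠ v) (k : ℕ)
    (h1 : 1 ≤ k) (h2 : k < w.length) (hp : perp (lt w (k - 1)) (lt w k))
    (hk : PP w (k - 1) + dv (lt w k) = v) (c : ℤ × ℤ)
    (hc : (min (PP w (k - 1)).1 (PP w (k + 1)).1, min (PP w (k - 1)).2 (PP w (k + 1)).2) = c)
    (e1 : Even c.1) (e2 : Even c.2) : k ∈ Fl w := by
  rw [mem_Fl]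
  have hc' : Pool.Agent.Q91.PT.cl w k = c := hc
  rw [hc']
  refine ⟨h1, h2, hp, e1, e2, saw_sw w k hw h1 h2 ?_⟩
  intro i hi _
  rw [hk]
  exact hv i hi

theorem lt_occ (Q w : List Dir) (i : ℕ) (h : (w.drop i).take Q.length = Q) (j : ℕ)
    (hj : j < Q.length) : lt w (i + j) = lt Q j ∧ i + j < w.length := by
  have h1 := congrArg List.length h
  rw [List.length_take, List.length_drop] at h1
  refine ⟨?_, by omega⟩
  have e : lt ((w.drop i).take Q.length) j = lt Q j := by rw [h]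
  rw [← e]
  unfold lt
  rw [List.getD_eq_getElem?_getD, List.getD_eq_getElem?_getD, List.getElem?_take_of_lt hj,
    List.getElem?_drop]

theorem rooms (w : List Dir) (i : ℕ) (h : (w.drop i).take Q0.length = Q0) :
    ∃ v : ℤ × ℤ, Room w i v ∧ Room w (i + 9) (v + (-3, -2)) ∧
      (∀ j < 17, lt w (i + j) = lt Q0 j) ∧ i + 17 ≤ w.length := by
  have hl : Q0.length = 17 := rfl
  have hlt : ∀ j < 17, lt w (i + j) = lt Q0 j := fun j hj => (lt_occ Q0 w i h j (by rw [hl]; exact hj)).1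
  have hlen : i + 17 ≤ w.length := by
    have := (lt_occ Q0 w i h 16 (by rw [hl]; norm_num)).2
    omega
  have st : ∀ j < 17, PP w (i + (j + 1)) = PP w (i + j) + dv (lt Q0 j) := by
    intro j hj
    rw [← add_assoc, PP_succ w (i + j) (by omega), hlt j hj]
  obtain ⟨v, hv⟩ : ∃ v, PP w i = v + (2, 0) := ⟨PP w i - (2, 0), by abel⟩
  have s0 := st 0 (by norm_num)
  have s1 := st 1 (by norm_num)
  have s2 := st 2 (by norm_num)
  have s3 := st 3 (by norm_num)
  have s4 := st 4 (by norm_num)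
  have s5 := st 5 (by norm_num)
  have s6 := st 6 (by norm_num)
  have s7 := st 7 (by norm_num)
  have s8 := st 8 (by norm_num)
  have s9 := st 9 (by norm_num)
  have s10 := st 10 (by norm_num)
  have s11 := st 11 (by norm_num)
  have s12 := st 12 (by norm_num)
  have s13 := st 13 (by norm_num)
  have s14 := st 14 (by norm_num)
  have s15 := st 15 (by norm_num)
  have s16 := st 16 (by norm_num)
  obtain ⟨x, y⟩ := v
  simp only [lt, Q0, List.getD_cons_zero, List.getD_cons_succ, dv, dx, dy, add_zero, zero_add,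
    Nat.reduceAdd] at hv s0 s1 s2 s3 s4 s5 s6 s7 s8 s9 s10 s11 s12 s13 s14 s15 s16
  rw [hv] at s0
  rw [s0] at s1
  rw [s1] at s2
  rw [s2] at s3
  rw [s3] at s4
  rw [s4] at s5
  rw [s5] at s6
  rw [s6] at s7
  rw [s7] at s8
  rw [s8] at s9
  rw [s9] at s10
  rw [s10] at s11
  rw [s11] at s12
  rw [s12] at s13
  rw [s13] at s14
  rw [s14] at s15
  rw [s15] at s16
  refine ⟨(x, y), ?_, ?_, hlt, hlen⟩
  · refine ⟨by omega, hv, ?_, ?_, ?_, ?_, ?_, ?_, ?_, ?_⟩
    · rw [s0]; simp only [Prod.mk_add_mk, Prod.mk.injEq]; omega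
    · rw [s1]; simp only [Prod.mk_add_mk, Prod.mk.injEq]; omega
    · rw [s2]; simp only [Prod.mk_add_mk, Prod.mk.injEq]; omega
    · rw [s3]; simp only [Prod.mk_add_mk, Prod.mk.injEq]; omega
    · rw [s4]; simp only [Prod.mk_add_mk, Prod.mk.injEq]; omega
    · rw [s5]; simp only [Prod.mk_add_mk, Prod.mk.injEq]; omega
    · rw [s6]; simp only [Prod.mk_add_mk, Prod.mk.injEq]; omega
    · rw [s7]; simp only [Prod.mk_add_mk, Prod.mk.injEq]; omega
  · refine ⟨by omega, ?_, ?_, ?_, ?_, ?_, ?_, ?_, ?_, ?_⟩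
    · rw [s8]; simp only [Prod.mk_add_mk, Prod.mk.injEq]; omega
    · rw [show i + 9 + 1 = i + 10 by ring, s9]; simp only [Prod.mk_add_mk, Prod.mk.injEq]; omega
    · rw [show i + 9 + 2 = i + 11 by ring, s10]; simp only [Prod.mk_add_mk, Prod.mk.injEq]; omega
    · rw [show i + 9 + 3 = i + 12 by ring, s11]; simp only [Prod.mk_add_mk, Prod.mk.injEq]; omega
    · rw [show i + 9 + 4 = i + 13 by ring, s12]; simp only [Prod.mk_add_mk, Prod.mk.injEq]; omega
    · rw [show i + 9 + 5 = i + 14 by ring, s13]; simp only [Prod.mk_add_mk, Prod.mk.injEq]; omega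
    · rw [show i + 9 + 6 = i + 15 by ring, s14]; simp only [Prod.mk_add_mk, Prod.mk.injEq]; omega
    · rw [show i + 9 + 7 = i + 16 by ring, s15]; simp only [Prod.mk_add_mk, Prod.mk.injEq]; omega
    · rw [show i + 9 + 8 = i + 17 by ring, s16]; simp only [Prod.mk_add_mk, Prod.mk.injEq]; omega

theorem fle1 (w : List Dir) (hw : Saw w) (i : ℕ) (hi : i ∈ occS Q0 w) :
    ∃ k ∈ Fl w, i < k ∧ k ≤ i + 16 := by
  unfold occS at hi
  rw [mem_filter] at hi
  obtain ⟨v, r1, r2, hlt, hlen⟩ := rooms w i hi.2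
  have d1 := dead w hw i v r1
  have d2 := dead w hw (i + 9) _ r2
  obtain ⟨-, a0, a1, a2, a3, a4, a5, a6, a7, a8⟩ := r1
  obtain ⟨-, b0, b1, b2, b3, b4, b5, b6, b7, b8⟩ := r2
  have l1 : lt w (i + 1) = Dir.N := hlt 1 (by norm_num)
  have l2 : lt w (i + 2) = Dir.W := hlt 2 (by norm_num)
  have l3 : lt w (i + 3) = Dir.W := hlt 3 (by norm_num)
  have l4 : lt w (i + 4) = Dir.S := hlt 4 (by norm_num)
  have l5 : lt w (i + 5) = Dir.S := hlt 5 (by norm_num)
  have l6 : lt w (i + 6) = Dir.E := hlt 6 (by norm_num)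
  have l14 : lt w (i + 14) = Dir.S := hlt 14 (by norm_num)
  have l15 : lt w (i + 15) = Dir.E := hlt 15 (by norm_num)
  obtain ⟨x, y⟩ := v
  rcases Int.even_or_odd x with hx | hx
  · rcases Int.even_or_odd y with hy | hy
    · refine ⟨i + 2, mk_Fl w hw (x, y) d1 (i + 2) (by omega) (by omega) ?_ ?_ (x, y) ?_ hx hy,
        by omega, by omega⟩
      · rw [show i + 2 - 1 = i + 1 by omega, l1, l2]; simp [perp, dx, dy]
      · rw [show i + 2 - 1 = i + 1 by omega, a1, l2]; simp [dv, dx, dy]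
      · rw [show i + 2 - 1 = i + 1 by omega, show i + 2 + 1 = i + 3 by omega, a1, a3]
        simp only [Prod.mk_add_mk, Prod.mk.injEq]; omega
    · refine ⟨i + 15, mk_Fl w hw ((x, y) + (-3, -2)) d2 (i + 15) (by omega) (by omega) ?_ ?_
        (x - 4, y - 3) ?_ ?_ ?_, by omega, by omega⟩
      · rw [show i + 15 - 1 = i + 14 by omega, l14, l15]; simp [perp, dx, dy]
      · rw [show i + 15 - 1 = i + 9 + 5 by omega, b5, l15]
        simp only [dv, dx, dy, Prod.mk_add_mk, Prod.mk.injEq]; omega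
      · rw [show i + 15 - 1 = i + 9 + 5 by omega, show i + 15 + 1 = i + 9 + 7 by omega, b5, b7]
        simp only [Prod.mk_add_mk, Prod.mk.injEq]; omega
      · obtain ⟨a, ha⟩ := hx
        exact ⟨a - 2, by show x - 4 = _; omega⟩
      · obtain ⟨a, ha⟩ := hy
        exact ⟨a - 1, by show y - 3 = _; omega⟩
  · rcases Int.even_or_odd y with hy | hy
    · refine ⟨i + 4, mk_Fl w hw (x, y) d1 (i + 4) (by omega) (by omega) ?_ ?_ (x - 1, y) ?_ ?_ hy,
        by omega, by omega⟩
      · rw [show i + 4 - 1 = i + 3 by omega, l3, l4]; simp [perp, dx, dy]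
      · rw [show i + 4 - 1 = i + 3 by omega, a3, l4]
        simp only [dv, dx, dy, Prod.mk_add_mk, Prod.mk.injEq]; omega
      · rw [show i + 4 - 1 = i + 3 by omega, show i + 4 + 1 = i + 5 by omega, a3, a5]
        simp only [Prod.mk_add_mk, Prod.mk.injEq]; omega
      · obtain ⟨a, ha⟩ := hx
        exact ⟨a, by show x - 1 = _; omega⟩
    · refine ⟨i + 6, mk_Fl w hw (x, y) d1 (i + 6) (by omega) (by omega) ?_ ?_ (x - 1, y - 1) ?_
        ?_ ?_, by omega, by omega⟩
      · rw [show i + 6 - 1 = i + 5 by omega, l5, l6]; simp [perp, dx, dy]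
      · rw [show i + 6 - 1 = i + 5 by omega, a5, l6]
        simp only [dv, dx, dy, Prod.mk_add_mk, Prod.mk.injEq]; omega
      · rw [show i + 6 - 1 = i + 5 by omega, show i + 6 + 1 = i + 7 by omega, a5, a7]
        simp only [Prod.mk_add_mk, Prod.mk.injEq]; omega
      · obtain ⟨a, ha⟩ := hx
        exact ⟨a, by show x - 1 = _; omega⟩
      · obtain ⟨a, ha⟩ := hy
        exact ⟨a, by show y - 1 = _; omega⟩

theorem fle : S_fle := by
  refine ⟨fun w hw i hi => fle1 w hw i hi, ?_⟩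
  intro w hw
  have h : occS Q0 w ⊆ (Fl w).biUnion (fun k => Finset.Ico (k - 16) k) := by
    intro i hi
    obtain ⟨k, hk, h1, h2⟩ := fle1 w hw i hi
    rw [mem_biUnion]
    exact ⟨k, hk, by rw [Finset.mem_Ico]; omega⟩
  unfold occ
  refine (card_le_card h).trans ?_
  rw [mul_comm]
  refine Finset.card_biUnion_le_card_mul _ _ _ ?_
  intro k _
  rw [Nat.card_Ico]
  omega

end Pool.Agent.Q210.PT
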