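import Pool.Agent.Q91.PT.Stm

set_option autoImplicit false

namespace Pool.Agent.Q210.PT

open Finset Pool.Agent.H976R2 Pool.Agent.H976R2.Lip Pool.Agent.H739K Pool.Agent.H924P
open Pool.Agent.Q91.PT
open scoped Classical

theorem mu_pos : 0 < H981.mu := H981.mu_pos

theorem Sm_mono {B : ℕ → Finset (List Dir)} {C θ θ' : ℝ} (hC : 0 < C) (h0 : 0 < θ) (h : θ ≤ θ')
    (hB : ∀ n : ℕ, ((B n).card : ℝ) ≤ C * (θ * H981.mu) ^ n) :
    ∀ n : ℕ, ((B n).card : ℝ) ≤ C * (θ' * H981.mu) ^ n := by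
  intro n
  refine (hB n).trans (mul_le_mul_of_nonneg_left ?_ hC.le)
  have := mu_pos
  exact pow_le_pow_left₀ (by positivity) (mul_le_mul_of_nonneg_right h this.le) n

theorem Sm_union (B B1 B2 : ℕ → Finset (List Dir)) (n0 : ℕ) (h1 : Sm B1) (h2 : Sm B2)
    (h : ∀ n, n0 ≤ n → B n ⊆ B1 n ∪ B2 n) : Sm B := by
  obtain ⟨C1, θ1, c1, t1, t1', b1⟩ := h1
  obtain ⟨C2, θ2, c2, t2, t2', b2⟩ := h2
  have hmu := mu_pos
  obtain ⟨θ, hθ⟩ : ∃ θ, θ = max θ1 θ2 := ⟨_, rfl⟩
  have hθ0 : 0 < θ := by rw [hθ]; exact lt_of_lt_of_le t1 (le_max_left _ _)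
  have hθ1 : θ < 1 := by rw [hθ]; exact max_lt t1' t2'
  have b1' := Sm_mono c1 t1 (le_max_left θ1 θ2) b1
  have b2' := Sm_mono c2 t2 (le_max_right θ1 θ2) b2
  rw [← hθ] at b1' b2'
  have hth : 0 < θ * H981.mu := mul_pos hθ0 hmu
  obtain ⟨R, hR⟩ : ∃ R : ℝ, R = ∑ i ∈ range n0, ((B i).card : ℝ) / (θ * H981.mu) ^ i := ⟨_, rfl⟩
  have hR0 : 0 ≤ R := by
    rw [hR]
    exact Finset.sum_nonneg (fun i _ => div_nonneg (Nat.cast_nonneg _) (pow_pos hth i).le)
  refine ⟨C1 + C2 + R, θ, by linarith, hθ0, hθ1, ?_⟩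
  intro n
  have hp : 0 < (θ * H981.mu) ^ n := pow_pos hth n
  rcases le_or_gt n0 n with hn | hn
  · have e1 : ((B n).card : ℝ) ≤ ((B1 n).card : ℝ) + ((B2 n).card : ℝ) := by
      exact_mod_cast (card_le_card (h n hn)).trans (card_union_le _ _)
    have e2 := b1' n
    have e3 := b2' n
    rw [add_mul, add_mul]
    have e4 : 0 ≤ R * (θ * H981.mu) ^ n := mul_nonneg hR0 hp.le
    linarith
  · have e1 : ((B n).card : ℝ) / (θ * H981.mu) ^ n ≤ R := by
      have e0 := Finset.single_le_sum (f := fun i => ((B i).card : ℝ) / (θ * H981.mu) ^ i)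
        (fun i _ => div_nonneg (Nat.cast_nonneg _) (pow_pos hth i).le) (mem_range.mpr hn)
      beta_reduce at e0
      exact e0.trans hR.symm.le
    rw [div_le_iff₀ hp] at e1
    have e4 : 0 ≤ (C1 + C2) * (θ * H981.mu) ^ n := mul_nonneg (by linarith) hp.le
    rw [add_mul]
    linarith

theorem EL_card (r k m : ℕ) (w : List Dir) :
    (EL r k m w).card ≤ (FS r m w).card + (EK r (k + 1) w).card + (2 * m + 2) := by
  have h : EL r k m w ⊆ (FS r m w ∪ EK r (k + 1) w) ∪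
      (range (m + 1) ∪ Finset.Ico (w.length - m) w.length) := by
    intro j hj
    unfold EL at hj
    rw [mem_filter, mem_range] at hj
    obtain ⟨hj1, hj2⟩ := hj
    rw [mem_union, mem_union, mem_union]
    by_cases h1 : j ∈ EK r (k + 1) w
    · left; right; exact h1
    by_cases h2 : m + 1 ≤ j
    swap
    · right; left; rw [mem_range]; omega
    by_cases h3 : j + m + 1 ≤ w.length
    swap
    · right; right; rw [Finset.mem_Ico]; omega
    left; left
    unfold EK at h1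
    rw [mem_filter, mem_range, not_and] at h1
    have h4 := h1 hj1
    have h5 : (vs r w j).filter (fun i => i ≤ j + m ∧ j ≤ i + m) = vs r w j :=
      Finset.eq_of_subset_of_card_le (filter_subset _ _) (by omega)
    unfold FS
    rw [mem_filter, mem_range]
    refine ⟨hj1, h2, h3, ?_⟩
    intro i hi
    rw [← h5, mem_filter] at hi
    exact hi.2
  refine (card_le_card h).trans ((card_union_le _ _).trans ?_)
  have e1 := card_union_le (FS r m w) (EK r (k + 1) w)
  have e2 := card_union_le (range (m + 1)) (Finset.Ico (w.length - m) w.length)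
  rw [card_range, Nat.card_Ico] at e2
  omega

theorem stp_step (hspl : S_spl) (hsur : S_sur) (r L : ℕ) (Q : List Dir)
    (fl : ℤ × ℤ → ℤ × ℤ → List Dir) (hr : 1 ≤ r) (hQ : Q ≠ []) (hfl : Fill r L Q fl) (k : ℕ)
    (h : SK r Q k) : SK r Q (k + 1) := by
  obtain ⟨m, a1, ε1, hm, ha1, hε1, hs1⟩ := hspl r k Q hQ h
  obtain ⟨ε2, hε2, hs2⟩ := hsur r L m Q fl (a1 / 2) hr hQ hfl (by positivity)
  refine ⟨a1 / 4, min ε1 ε2, by positivity, lt_min hε1 hε2, ?_⟩
  obtain ⟨n0, hn0⟩ := exists_nat_ge ((2 * m + 2) / (a1 / 4))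
  refine Sm_union _ _ _ n0 hs1 hs2 ?_
  intro n hn w hw
  rw [mem_filter] at hw
  obtain ⟨hw1, hw2, hw3⟩ := hw
  have hn0' : (2 * m + 2 : ℝ) ≤ a1 / 4 * n := by
    have e1 : ((2 * m + 2) / (a1 / 4) : ℝ) ≤ n := hn0.trans (by exact_mod_cast hn)
    rw [div_le_iff₀ (by positivity)] at e1
    linarith
  have e2 : ((EL r k m w).card : ℝ) ≤ (FS r m w).card + (EK r (k + 1) w).card + (2 * m + 2) := by
    exact_mod_cast EL_card r k m w
  have hn' : (0 : ℝ) ≤ n := Nat.cast_nonneg n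
  rw [mem_union, mem_filter, mem_filter]
  by_cases hc : ((EL r k m w).card : ℝ) ≤ a1 * n
  · left
    exact ⟨hw1, hw2.trans (mul_le_mul_of_nonneg_right (min_le_left _ _) hn'), hc⟩
  · right
    refine ⟨hw1, hw2.trans (mul_le_mul_of_nonneg_right (min_le_right _ _) hn'), ?_⟩
    push Not at hc
    linarith

theorem stp (hone : S_one) (hspl : S_spl) (hsur : S_sur) : S_stp := by
  intro r L Q fl hr hQ hfl
  have h : ∀ k, SK r Q (k + 1) := by
    intro k
    induction k with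
    | zero => exact hone.1 r Q
    | succ k ih => exact stp_step hspl hsur r L Q fl hr hQ hfl (k + 1) ih
  exact hone.2 r Q (h _)

end Pool.Agent.Q210.PT
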